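import Pool.Agent.U955.TD.Stm

set_option autoImplicit false

/-! Project TD, package RT: the energies. -/

namespace Pool.Agent.U346.TD

open Pool.Agent.U955.TD

lemma W_sin (ψ : ℝ) : ∀ i : ℕ, W (2 * Real.cos (2 * ψ)) i * Real.sin (2 * ψ) = Real.sin (2 * i * ψ) ∧
    W (2 * Real.cos (2 * ψ)) (i + 1) * Real.sin (2 * ψ) = Real.sin (2 * (i + 1) * ψ) := by
  intro i
  induction i with
  | zero =>
    refine ⟨?_, ?_⟩
    · simp [W]
    · simp [W]
  | succ i ih =>
    refine ⟨?_, ?_⟩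
    · have := ih.2
      push_cast
      exact this
    · have h1 := ih.1
      have h2 := ih.2
      change (2 * Real.cos (2 * ψ) * W (2 * Real.cos (2 * ψ)) (i + 1) - W (2 * Real.cos (2 * ψ)) i) *
        Real.sin (2 * ψ) = _
      have e1 : Real.sin (2 * (((i + 1 : ℕ) : ℝ) + 1) * ψ) =
          Real.sin (2 * (i + 1) * ψ + 2 * ψ) := by
        congr 1; push_cast; ring
      have e2 : Real.sin (2 * i * ψ) = Real.sin (2 * (i + 1) * ψ - 2 * ψ) := by
        congr 1; ring
      rw [e1, Real.sin_add]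
      rw [e2, Real.sin_sub] at h1
      linear_combination 2 * Real.cos (2 * ψ) * h2 - h1

lemma W_pow (z : ℝ) (hz : z ≠ 0) : ∀ i : ℕ, W (z + 1 / z) i * (z - 1 / z) = z ^ i - (1 / z) ^ i ∧
    W (z + 1 / z) (i + 1) * (z - 1 / z) = z ^ (i + 1) - (1 / z) ^ (i + 1) := by
  intro i
  induction i with
  | zero =>
    refine ⟨?_, ?_⟩
    · simp [W]
    · simp [W]
  | succ i ih =>
    refine ⟨ih.2, ?_⟩
    have h1 := ih.1
    have h2 := ih.2
    change ((z + 1 / z) * W (z + 1 / z) (i + 1) - W (z + 1 / z) i) * (z - 1 / z) = _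
    have h3 : z * (1 / z) = 1 := by field_simp
    set y := 1 / z with hy
    have e : ((z + y) * W (z + y) (i + 1) - W (z + y) i) * (z - y) =
        (z + y) * (z ^ (i + 1) - y ^ (i + 1)) - (z ^ i - y ^ i) := by
      linear_combination (z + y) * h2 - h1
    rw [e]
    have e2 : (z + y) * (z ^ (i + 1) - y ^ (i + 1)) - (z ^ i - y ^ i) - (z ^ (i + 1 + 1) - y ^ (i + 1 + 1)) =
        (z * y - 1) * (z ^ i - y ^ i) := by ring
    have : (z * y - 1) * (z ^ i - y ^ i) = 0 := by rw [h3]; ring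
    linarith

lemma alg {C S c s : ℝ} (h1 : C ^ 2 + S ^ 2 = 1) (h2 : c ^ 2 + s ^ 2 = 1) (R : c * C + 3 * (s * S) = 0) :
    (C ^ 2 + 9 * S ^ 2) * (s * c) = -3 * S * C ∧
      (C ^ 2 + 9 * S ^ 2) * (c ^ 2 - s ^ 2) = 9 * S ^ 2 - C ^ 2 := by
  constructor
  · linear_combination (s * C + 3 * S * c) * R - 3 * S * C * h2
  · linear_combination (2 * c * C - 6 * s * S) * R + (9 * S ^ 2 - C ^ 2) * h2

lemma root (N : ℕ) (hN : 1 ≤ N) (k : ℕ) : ∃ ψ : ℝ, Real.pi * k / N < ψ ∧ ψ < Real.pi * (k + 1) / N ∧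
    Real.cos ((N + 2) * ψ) - 2 * Real.cos (N * ψ) = 0 := by
  have hN0 : (0 : ℝ) < N := by exact_mod_cast hN
  have hpi := Real.pi_pos
  set F : ℝ → ℝ := fun ψ => (-1) ^ k * (Real.cos ((N + 2) * ψ) - 2 * Real.cos (N * ψ)) with hF
  have hc : Continuous F := by
    rw [hF]; fun_prop
  have hab : Real.pi * k / N ≤ Real.pi * (k + 1) / N := by
    apply div_le_div_of_nonneg_right _ hN0.le
    nlinarith
  have hsq : ((-1 : ℝ) ^ k) * (-1) ^ k = 1 := by
    rw [← mul_pow]; norm_num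
  have hb : ∀ x : ℝ, |(-1 : ℝ) ^ k * Real.cos x| ≤ 1 := by
    intro x
    rw [abs_mul, abs_pow, abs_neg, abs_one, one_pow, one_mul]
    exact Real.abs_cos_le_one x
  have e1 : Real.cos (N * (Real.pi * k / N)) = (-1) ^ k := by
    rw [show (N : ℝ) * (Real.pi * k / N) = k * Real.pi by field_simp]
    exact Real.cos_nat_mul_pi k
  have e2 : Real.cos (N * (Real.pi * (k + 1) / N)) = - (-1) ^ k := by
    rw [show (N : ℝ) * (Real.pi * (k + 1) / N) = ((k + 1 : ℕ) : ℝ) * Real.pi by push_cast; field_simp]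
    rw [Real.cos_nat_mul_pi, pow_succ]
    ring
  have v1 : F (Real.pi * k / N) < 0 := by
    have h := (abs_le.1 (hb ((N + 2) * (Real.pi * k / N)))).2
    have : F (Real.pi * k / N) = (-1) ^ k * Real.cos ((N + 2) * (Real.pi * k / N)) - 2 := by
      simp only [hF, e1]
      linear_combination (-2) * hsq
    rw [this]; linarith
  have v2 : 0 < F (Real.pi * (k + 1) / N) := by
    have h := (abs_le.1 (hb ((N + 2) * (Real.pi * (k + 1) / N)))).1
    have : F (Real.pi * (k + 1) / N) = (-1) ^ k * Real.cos ((N + 2) * (Real.pi * (k + 1) / N)) + 2 := by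
      simp only [hF, e2]
      linear_combination 2 * hsq
    rw [this]; linarith
  obtain ⟨ψ, hψ, h0⟩ := intermediate_value_Ioo hab hc.continuousOn ⟨v1, v2⟩
  refine ⟨ψ, hψ.1, hψ.2, ?_⟩
  have hne : (-1 : ℝ) ^ k ≠ 0 := pow_ne_zero _ (by norm_num)
  exact (mul_eq_zero.1 h0).resolve_left hne

lemma small (N : ℕ) (ψ : ℝ) (h : Real.cos ((N + 2) * ψ) - 2 * Real.cos (N * ψ) = 0)
    (hs : 0 < Real.sin (2 * ψ)) :
    (2 * (2 * Real.cos (2 * ψ)) - 5) * W (2 * Real.cos (2 * ψ)) (N + 1) = 3 ∧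
    (2 * (2 * Real.cos (2 * ψ)) - 5) * W (2 * Real.cos (2 * ψ)) N = 4 - 2 * Real.cos (2 * ψ) := by
  obtain ⟨w1, w2⟩ := W_sin ψ N
  set x : ℝ := (N + 1) * ψ with hx
  have hR : Real.cos x * Real.cos ψ + 3 * (Real.sin x * Real.sin ψ) = 0 := by
    have a1 : Real.cos ((N + 2) * ψ) = Real.cos (x + ψ) := by congr 1; rw [hx]; ring
    have a2 : Real.cos (N * ψ) = Real.cos (x - ψ) := by congr 1; rw [hx]; ring
    rw [a1, a2, Real.cos_add, Real.cos_sub] at h
    linarith
  have h1 : Real.cos ψ ^ 2 + Real.sin ψ ^ 2 = 1 := Real.cos_sq_add_sin_sq ψ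
  have h2 : Real.cos x ^ 2 + Real.sin x ^ 2 = 1 := Real.cos_sq_add_sin_sq x
  obtain ⟨k1, k2⟩ := alg h1 h2 hR
  have b1 : Real.sin (2 * (N + 1) * ψ) = 2 * Real.sin x * Real.cos x := by
    rw [← Real.sin_two_mul]; congr 1; rw [hx]; ring
  have b2 : Real.sin (2 * N * ψ) = 2 * Real.sin x * Real.cos x * Real.cos (2 * ψ) -
      (2 * Real.cos x ^ 2 - 1) * Real.sin (2 * ψ) := by
    rw [← Real.sin_two_mul, ← Real.cos_two_mul, ← Real.sin_sub]; congr 1; rw [hx]; ring
  have c1 : Real.cos (2 * ψ) = 2 * Real.cos ψ ^ 2 - 1 := Real.cos_two_mul ψ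
  have s1 : Real.sin (2 * ψ) = 2 * Real.sin ψ * Real.cos ψ := Real.sin_two_mul ψ
  rw [b1] at w2
  rw [b2] at w1
  set C := Real.cos ψ
  set S := Real.sin ψ
  set c := Real.cos x
  set s := Real.sin x
  have hS2 : S ^ 2 = 1 - C ^ 2 := by linarith
  have hs2 : s ^ 2 = 1 - c ^ 2 := by linarith
  have f1 : 2 * (2 * Real.cos (2 * ψ)) - 5 = -(C ^ 2 + 9 * S ^ 2) := by
    rw [c1, hS2]; ring
  constructor
  · apply mul_right_cancel₀ hs.ne'
    rw [mul_assoc, w2, f1]
    rw [s1]
    linear_combination (-2) * k1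
  · apply mul_right_cancel₀ hs.ne'
    rw [mul_assoc, w1, f1]
    have g1 : 2 * c ^ 2 - 1 = c ^ 2 - s ^ 2 := by linarith
    rw [g1]
    have g2 : 4 - 2 * Real.cos (2 * ψ) = 3 * Real.cos (2 * ψ) + (9 * S ^ 2 - C ^ 2) := by
      rw [c1, hS2]; ring
    rw [g2, add_mul]
    have g3 : Real.sin (2 * ψ) * Real.cos (2 * ψ) * 3 = 6 * S * C * Real.cos (2 * ψ) := by rw [s1]; ring
    linear_combination (-2) * Real.cos (2 * ψ) * k1 + Real.sin (2 * ψ) * k2 - g3

lemma big (N : ℕ) (hN : 1 ≤ N) : ∃ t : ℝ, 5 / 2 < t ∧ (2 * t - 5) * W t (N + 1) = 3 ∧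
    (2 * t - 5) * W t N = 4 - t := by
  set F : ℝ → ℝ := fun z => z ^ (N + 1) * (z - 2) - (2 * z - 1) with hF
  have hc : Continuous F := by rw [hF]; fun_prop
  have v1 : F 2 < 0 := by simp only [hF]; norm_num
  have v2 : 0 < F 3 := by
    simp only [hF]
    have : (3 : ℝ) ^ 2 ≤ 3 ^ (N + 1) := pow_le_pow_right₀ (by norm_num) (by omega)
    linarith
  obtain ⟨z, hz, h0⟩ := intermediate_value_Ioo (by norm_num : (2 : ℝ) ≤ 3) hc.continuousOn ⟨v1, v2⟩
  have hz2 : 2 < z := hz.1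
  have hz0 : z ≠ 0 := by linarith
  have hzz : z - 2 ≠ 0 := by linarith
  have hz1 : 2 * z - 1 ≠ 0 := by linarith
  have hZ : z ^ (N + 1) = (2 * z - 1) / (z - 2) := by
    rw [eq_div_iff hzz]
    simp only [hF] at h0
    linarith
  obtain ⟨w1, w2⟩ := W_pow z hz0 N
  have hd : z - 1 / z ≠ 0 := by
    have : 1 / z < 1 := by rw [div_lt_one (by linarith)]; linarith
    intro h
    linarith
  have hinv : (1 / z) ^ (N + 1) = (z - 2) / (2 * z - 1) := by
    rw [one_div, inv_pow, hZ, inv_div]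
  have hZ' : z ^ N = (2 * z - 1) / (z - 2) / z := by
    rw [← hZ, pow_succ]; field_simp
  have hinv' : (1 / z) ^ N = (z - 2) / (2 * z - 1) * z := by
    rw [← hinv, pow_succ]; field_simp
  refine ⟨z + 1 / z, ?_, ?_, ?_⟩
  · have : z + 1 / z - 5 / 2 = (2 * z - 1) * (z - 2) / (2 * z) := by field_simp; ring
    have h2 : 0 < (2 * z - 1) * (z - 2) / (2 * z) := by
      apply div_pos (mul_pos (by linarith) (by linarith)) (by linarith)
    linarith
  · apply mul_right_cancel₀ hd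
    rw [mul_assoc, w2, hZ, hinv]
    field_simp
    ring
  · apply mul_right_cancel₀ hd
    rw [mul_assoc, w1, hZ', hinv']
    field_simp
    ring

theorem t_RT : S_RT := by
  intro n m hm
  obtain ⟨N, rfl⟩ : ∃ N, m = N + 3 := ⟨m - 3, by omega⟩
  have hN : 2 * (n + 1) ≤ N := by omega
  have hN1 : 1 ≤ N := by omega
  have hN0 : (0 : ℝ) < N := by exact_mod_cast hN1
  have hNr : (2 : ℝ) * (n + 1) ≤ N := by exact_mod_cast hN
  have hpi := Real.pi_pos
  choose ψ h1 h2 h3 using root N hN1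
  obtain ⟨t0, ht0, b1, b2⟩ := big N hN1
  have hmono : StrictMono ψ := by
    apply strictMono_nat_of_lt_succ
    intro k
    have := h1 (k + 1)
    push_cast at this
    exact lt_trans (h2 k) this
  have hpos : ∀ k, 0 < 2 * ψ k := by
    intro k
    have := h1 k
    have h : 0 ≤ Real.pi * k / N := by positivity
    linarith
  have hlt : ∀ k, k ≤ n → 2 * ψ k < Real.pi := by
    intro k hk
    have h := h2 k
    have hk' : (k : ℝ) ≤ n := by exact_mod_cast hk
    have : Real.pi * (k + 1) / N ≤ Real.pi / 2 := by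
      rw [div_le_div_iff₀ hN0 (by norm_num)]
      nlinarith
    linarith
  have hsin : ∀ k, k ≤ n → 0 < Real.sin (2 * ψ k) := fun k hk =>
    Real.sin_pos_of_pos_of_lt_pi (hpos k) (hlt k hk)
  have hcos : ∀ k, k ≤ n → 2 * Real.cos (2 * ψ k) < 2 := by
    intro k hk
    have := hsin k hk
    have h := Real.sin_sq_add_cos_sq (2 * ψ k)
    nlinarith
  refine ⟨fun j => if j = 0 then t0 else 2 * Real.cos (2 * ψ (j.val - 1)), ?_, ?_, ?_, ?_⟩
  · intro i j hij
    have hval : ∀ i : Fin (n + 2), i ≠ 0 → 1 ≤ i.val := by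
      intro i hi
      have : i.val ≠ 0 := fun h => hi (Fin.ext h)
      omega
    by_cases hi : i = 0
    · by_cases hj : j = 0
      · rw [hi, hj]
      · exfalso
        simp only [hi, hj, if_true, if_false] at hij
        have := hcos (j.val - 1) (by omega)
        linarith
    · by_cases hj : j = 0
      · exfalso
        simp only [hi, hj, if_true, if_false] at hij
        have := hcos (i.val - 1) (by omega)
        linarith
      · simp only [hi, hj, if_false] at hij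
        have hc : Real.cos (2 * ψ (i.val - 1)) = Real.cos (2 * ψ (j.val - 1)) := by linarith
        have := Real.injOn_cos ⟨(hpos _).le, (hlt (i.val - 1) (by omega)).le⟩
          ⟨(hpos _).le, (hlt (j.val - 1) (by omega)).le⟩ hc
        have h4 : ψ (i.val - 1) = ψ (j.val - 1) := by linarith
        have h5 := hmono.injective h4
        have := hval i hi
        have := hval j hj
        apply Fin.ext
        omega
  · simp only [if_true]
    exact ht0
  · intro j hj
    simp only [hj, if_false]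
    exact hcos _ (by omega)
  · intro j
    have e1 : N + 3 - 2 = N + 1 := by omega
    have e2 : N + 3 - 3 = N := by omega
    rw [e1, e2]
    by_cases hj : j = 0
    · simp only [hj, if_true]
      exact ⟨b1, b2⟩
    · simp only [hj, if_false]
      exact small N _ (h3 _) (hsin _ (by omega))

end Pool.Agent.U346.TD
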